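import Pool.Agent.H2N.TL.Core

/-!
Tensor powers of the cohomology and all Artin twists at the same time: Bessel's inequality for the
polynomials in the normalised Frobenius trace.
-/

set_option autoImplicit false

namespace Pool.Agent.H2N.TJ

open Complex Filter Topology ComplexConjugate NumberField IsDedekindDomain Asymptotics
  Pool.Agent.W401.Cheb Pool.Agent.W540.BE Pool.Agent.W353.L1 Polynomial
open Pool.Agent.H341R2 (lam lam_tendsto)
open Pool.Agent.W353.PV (tF)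
open Pool.Agent.W353.EF (LFun)
open Pool.Agent.W353.EH (edgePoint size HasOrder)
open Pool.Agent.W353.AT (IsArtin exists_common)
open Pool.Agent.Y139.SM (chebC chebC_sum chebC_one chebC_even bessel_two)
open Pool.Agent.H2N.TL

section
variable {K : Type} [Field K] [NumberField K] {l : ℕ} {X : Set (MvPolynomial (Fin l) (𝓞 K))}
  {d i N : ℕ}

/-- the value of the polynomial at the normalised trace of Frobenius -/
noncomputable def pv (X : Set (MvPolynomial (Fin l) (𝓞 K))) (d i N : ℕ) (S : Finset ℕ) (e : ℕ → ℕ)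
    (c : ℕ → ℝ) (v : HeightOneSpectrum (𝓞 K)) : ℝ := ∑ r ∈ S, c r * (tF X d i N K v) ^ e r

theorem abs_pv {S : Finset ℕ} {e : ℕ → ℕ} {c : ℕ → ℝ} {b : ℝ}
    (hb : ∀ t : ℝ, |t| ≤ N → |∑ r ∈ S, c r * t ^ e r| ≤ b) (v : HeightOneSpectrum (𝓞 K)) :
    |pv X d i N S e c v| ≤ b := hb _ (abs_tr_le _ _ _)

/-- the sizes give the mean values of the products of the polynomial and the character -/
theorem pv_size (hi : i ≤ 2 * d) {σ : HeightOneSpectrum (𝓞 K) → GK K}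
    (hσ : ∀ v, IsFrob v (σ v)) {n : ℕ} (χ : Representation ℂ (GK K) (Fin n → ℂ)) (hχ : IsArtin χ)
    (τ : ℝ) (S : Finset ℕ) (e : ℕ → ℕ) (c : ℕ → ℝ)
    (B : ℕ → HeightOneSpectrum (𝓞 K) → ℂ[X]) (hB : ∀ r ∈ S, IsPowerAt X d i N (e r) χ τ (B r)) :
    Tendsto (fun ε : ℝ => (EP (nm K) ε fun v => pv X d i N S e c v * RR χ τ σ v) / lam ε -
      ∑ r ∈ S, c r * size (e r * i) τ (B r) ε) (𝓝[>] 0) (𝓝 0) := by
  classical
  obtain ⟨U, hUn, hU, hx1⟩ := exists_common (κ := Unit) (n := fun _ => n)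
    (fun _ => χ) fun _ => hχ
  have hx1 : ∀ u ∈ U, χ u = 1 := hx1 ()
  have hfin : Finite (GK K ⧸ U) := Subgroup.quotient_finite_of_isOpen U hU
  have hbd : ∀ r v, |(tF X d i N K v) ^ r * RR χ τ σ v| ≤ (N : ℝ) ^ r * n := by
    intro r v
    rw [abs_mul, abs_pow]
    exact mul_le_mul (pow_le_pow_left₀ (abs_nonneg _) (abs_tr_le _ _ _) _)
      (abs_RR_le U χ hx1 _ _ _) (abs_nonneg _) (by positivity)
  have h1 : Tendsto (fun ε : ℝ => ∑ j ∈ S, c j * ((EP (nm K) ε fun v =>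
      (tF X d i N K v) ^ e j * RR χ τ σ v) / lam ε - size (e j * i) τ (B j) ε)) (𝓝[>] 0) (𝓝 0) := by
    have h2 := tendsto_finsetSum (f := fun j ε => c j * ((EP (nm K) ε fun v =>
      (tF X d i N K v) ^ e j * RR χ τ σ v) / lam ε - size (e j * i) τ (B j) ε))
      (a := fun j => c j * 0) S
      fun r hr => ((power_size hi hσ (e r) χ hχ τ (B r) (hB r hr)).2).const_mul (c r)
    simpa using h2
  refine h1.congr' ?_
  filter_upwards [self_mem_nhdsWithin] with ε h4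
  have hε : (0 : ℝ) < ε := h4
  have h6 : (EP (nm K) ε fun v => pv X d i N S e c v * RR χ τ σ v) =
      ∑ j ∈ S, c j * EP (nm K) ε fun v => (tF X d i N K v) ^ e j * RR χ τ σ v := by
    have e1 : (fun v => pv X d i N S e c v * RR χ τ σ v) =
        fun v => ∑ j ∈ S, c j * ((tF X d i N K v) ^ e j * RR χ τ σ v) := by
      funext v
      unfold pv
      rw [Finset.sum_mul]
      exact Finset.sum_congr rfl fun r _ => by ring
    rw [e1, EP_sum normSys hε S (fun r v => c r * ((tF X d i N K v) ^ e r * RR χ τ σ v))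
      (fun r => |c r| * ((N : ℝ) ^ e r * n)) (by
        intro k _ v
        rw [abs_mul]
        exact mul_le_mul_of_nonneg_left (hbd _ v) (abs_nonneg _))]
    exact Finset.sum_congr rfl fun k _ => EP_const_mul _ _
  rw [h6, Finset.sum_div, ← Finset.sum_sub_distrib]
  refine Finset.sum_congr rfl fun k _ => ?_
  ring

/-- **Bessel's inequality for a polynomial** -/
theorem joint_gen {κ : Type} [Fintype κ] {n : κ → ℕ}
    (χ : ∀ k, Representation ℂ (GK K) (Fin (n k) → ℂ))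
    (hχ : ∀ k, IsArtin (χ k)) (hirr : ∀ k, (χ k).IsIrreducible) (τ : κ → ℝ)
    (hne : ∀ k l, k ≠ l → τ k = τ l → IsEmpty ((χ k).Equiv (χ l)))
    (S : Finset ℕ) (e : ℕ → ℕ) (c : ℕ → ℝ) {b : ℝ}
    (hb : ∀ t : ℝ, |t| ≤ N → |∑ r ∈ S, c r * t ^ e r| ≤ b)
    (x : κ → ℝ → ℝ) (σ : HeightOneSpectrum (𝓞 K) → GK K) (hσ : ∀ v, IsFrob v (σ v))
    (hx : ∀ k, Tendsto (fun ε : ℝ => (EP (nm K) ε fun v =>
      pv X d i N S e c v * RR (χ k) (τ k) σ v) / lam ε - x k ε) (𝓝[>] 0) (𝓝 0))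
    {η : ℝ} (hη : 0 < η) : ∀ᶠ ε : ℝ in 𝓝[>] 0, ∑ k, (x k ε) ^ 2 ≤ b ^ 2 + η := by
  classical
  obtain ⟨U, hUn, hU, hx1⟩ := exists_common χ hχ
  have hfin : Finite (GK K ⧸ U) := Subgroup.quotient_finite_of_isOpen U hU
  have hb0 : 0 ≤ b := (abs_nonneg _).trans (hb 0 (by simp))
  have h1 := bessel_two U hU Finset.univ χ hx1 τ σ hσ (T := fun v => pv X d i N S e c v)
    (s := b) hb0 (fun v => abs_pv hb v) (x := x) (fun k _ => hx k)
    (S := fun ε => (EP (nm K) ε fun v => pv X d i N S e c v * pv X d i N S e c v) / lam ε)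
    (by simp) (fun k _ => hirr k) (fun k _ l _ => hne k l) (η := η / 2) (by positivity)
  have h2 : ∀ᶠ ε : ℝ in 𝓝[>] 0, b ^ 2 * ((EP (nm K) ε fun _ => 1) / lam ε) < b ^ 2 + η / 2 := by
    have h3 := (EP_one K).const_mul (b ^ 2)
    rw [mul_one] at h3
    exact h3.eventually_lt_const (by linarith)
  filter_upwards [h1, h2, lam_tendsto.eventually_gt_atTop 0, self_mem_nhdsWithin] with ε g1 g2 g3 g4
  have hε : (0 : ℝ) < ε := g4
  have h5 : (EP (nm K) ε fun v => pv X d i N S e c v * pv X d i N S e c v) ≤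
      b ^ 2 * EP (nm K) ε fun _ => 1 := by
    rw [← EP_const_mul]
    refine (le_abs_self _).trans (EP_abs_le (B := b ^ 2) (fun v => ?_) (fun v => ?_) hε)
    · rw [mul_one, abs_of_nonneg (by positivity)]
    · rw [mul_one, abs_mul, sq]
      exact mul_le_mul (abs_pv hb v) (abs_pv hb v) (abs_nonneg _) hb0
  have h6 : (EP (nm K) ε fun v => pv X d i N S e c v * pv X d i N S e c v) / lam ε ≤
      b ^ 2 * ((EP (nm K) ε fun _ => 1) / lam ε) := by
    rw [← mul_div_assoc]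
    exact div_le_div_of_nonneg_right h5 g3.le
  linarith

theorem joint_size (hi : i ≤ 2 * d) {κ : Type} [Fintype κ] {n : κ → ℕ}
    (χ : ∀ k, Representation ℂ (GK K) (Fin (n k) → ℂ))
    (hχ : ∀ k, IsArtin (χ k)) (hirr : ∀ k, (χ k).IsIrreducible) (τ : κ → ℝ)
    (hne : ∀ k l, k ≠ l → τ k = τ l → IsEmpty ((χ k).Equiv (χ l)))
    (S : Finset ℕ) (e : ℕ → ℕ) (c : ℕ → ℝ) {b : ℝ}
    (hb : ∀ t : ℝ, |t| ≤ N → |∑ r ∈ S, c r * t ^ e r| ≤ b)
    (B : κ → ℕ → HeightOneSpectrum (𝓞 K) → ℂ[X])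
    (hB : ∀ k, ∀ r ∈ S, IsPowerAt X d i N (e r) (χ k) (τ k) (B k r))
    {η : ℝ} (hη : 0 < η) : ∀ᶠ ε : ℝ in 𝓝[>] 0,
      ∑ k, (∑ r ∈ S, c r * size (e r * i) (τ k) (B k r) ε) ^ 2 ≤ b ^ 2 + η := by
  choose σ hσ using exists_isFrob (F := K)
  exact joint_gen (X := X) (d := d) (i := i) χ hχ hirr τ hne S e c hb
    (fun k ε => ∑ r ∈ S, c r * size (e r * i) (τ k) (B k r) ε) σ hσ
    (fun k => pv_size hi hσ (χ k) (hχ k) (τ k) S e c (B k) (hB k)) hη

theorem joint_order (hi : i ≤ 2 * d) {κ : Type} [Fintype κ] {n : κ → ℕ}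
    (χ : ∀ k, Representation ℂ (GK K) (Fin (n k) → ℂ))
    (hχ : ∀ k, IsArtin (χ k)) (hirr : ∀ k, (χ k).IsIrreducible) (τ : κ → ℝ)
    (hne : ∀ k l, k ≠ l → τ k = τ l → IsEmpty ((χ k).Equiv (χ l)))
    (S : Finset ℕ) (e : ℕ → ℕ) (c : ℕ → ℝ) {b : ℝ}
    (hb : ∀ t : ℝ, |t| ≤ N → |∑ r ∈ S, c r * t ^ e r| ≤ b)
    (B : κ → ℕ → HeightOneSpectrum (𝓞 K) → ℂ[X])
    (hB : ∀ k, ∀ r ∈ S, IsPowerAt X d i N (e r) (χ k) (τ k) (B k r))
    (m : κ → ℕ → ℤ) (hm : ∀ k, ∀ r ∈ S, HasOrder (e r * i) (τ k) (B k r) (m k r)) :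
    ∑ k, (∑ r ∈ S, c r * m k r) ^ 2 ≤ b ^ 2 := by
  have h1 : Tendsto (fun ε : ℝ => ∑ k, (∑ r ∈ S, c r * size (e r * i) (τ k) (B k r) ε) ^ 2)
      (𝓝[>] 0) (𝓝 (∑ k, (∑ r ∈ S, c r * (-(m k r : ℝ))) ^ 2)) :=
    tendsto_finsetSum _ fun k _ => (tendsto_finsetSum _ fun r hr =>
      (size_lim (nonvanish hi (χ k) (hχ k) (τ k) (hB k r hr)) (hm k r hr)).const_mul _).pow 2
  have h2 : ∑ k, (∑ r ∈ S, c r * (-(m k r : ℝ))) ^ 2 = ∑ k, (∑ r ∈ S, c r * m k r) ^ 2 := by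
    refine Finset.sum_congr rfl fun k _ => ?_
    rw [← neg_sq]
    congr 1
    rw [← Finset.sum_neg_distrib]
    exact Finset.sum_congr rfl fun r _ => by ring
  rw [h2] at h1
  exact le_of_forall_pos_le_add fun η hη => le_of_tendsto h1
    (joint_size hi χ hχ hirr τ hne S e c hb B hB hη)

/-- the inequality for real characters and positive heights -/
theorem joint_real (hi : i ≤ 2 * d) {κ : Type} [Fintype κ] {n : κ → ℕ}
    (χ : ∀ k, Representation ℂ (GK K) (Fin (n k) → ℂ))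
    (hχ : ∀ k, IsArtin (χ k)) (hirr : ∀ k, (χ k).IsIrreducible) (τ : κ → ℝ)
    (hne : ∀ k l, k ≠ l → τ k = τ l → IsEmpty ((χ k).Equiv (χ l)))
    (hτ : ∀ k, 0 < τ k) (hreal : ∀ k g, ((χ k).character g).im = 0)
    (S : Finset ℕ) (e : ℕ → ℕ) (c : ℕ → ℝ) {b : ℝ}
    (hb : ∀ t : ℝ, |t| ≤ N → |∑ r ∈ S, c r * t ^ e r| ≤ b)
    (B : κ → ℕ → HeightOneSpectrum (𝓞 K) → ℂ[X])
    (hB : ∀ k, ∀ r ∈ S, IsPowerAt X d i N (e r) (χ k) (τ k) (B k r)) :
    (∀ η : ℝ, 0 < η → ∀ᶠ ε : ℝ in 𝓝[>] 0,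
      2 * ∑ k, (∑ r ∈ S, c r * size (e r * i) (τ k) (B k r) ε) ^ 2 ≤ b ^ 2 + η) ∧
    ∀ m : κ → ℕ → ℤ, (∀ k, ∀ r ∈ S, HasOrder (e r * i) (τ k) (B k r) (m k r)) →
      2 * ∑ k, (∑ r ∈ S, c r * m k r) ^ 2 ≤ b ^ 2 := by
  classical
  choose σ hσ using exists_isFrob (F := K)
  have h1 : ∀ η : ℝ, 0 < η → ∀ᶠ ε : ℝ in 𝓝[>] 0,
      2 * ∑ k, (∑ r ∈ S, c r * size (e r * i) (τ k) (B k r) ε) ^ 2 ≤ b ^ 2 + η := by
    intro η hη
    have h := joint_gen (X := X) (d := d) (i := i) (κ := κ ⊕ κ) (n := Sum.elim n n)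
      (fun k => match k with
        | Sum.inl k => χ k
        | Sum.inr k => χ k)
      (fun k => match k with
        | Sum.inl k => hχ k
        | Sum.inr k => hχ k)
      (fun k => match k with
        | Sum.inl k => hirr k
        | Sum.inr k => hirr k)
      (Sum.elim τ fun k => -τ k)
      (by
        intro k l hkl he
        rcases k with k | k <;> rcases l with l | l <;>
          simp only [Sum.elim_inl, Sum.elim_inr] at he
        · exact hne k l (fun h => hkl (by rw [h])) he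
        · have := hτ k
          have := hτ l
          exfalso
          linarith
        · have := hτ k
          have := hτ l
          exfalso
          linarith
        · exact hne k l (fun h => hkl (by rw [h])) (by linarith)) S e c hb
      (Sum.elim (fun k ε => ∑ r ∈ S, c r * size (e r * i) (τ k) (B k r) ε)
        fun k ε => ∑ r ∈ S, c r * size (e r * i) (τ k) (B k r) ε) σ hσ
      (fun k => by
        rcases k with k | k
        · exact pv_size hi hσ (χ k) (hχ k) (τ k) S e c (B k) (hB k)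
        · have h2 := pv_size hi hσ (χ k) (hχ k) (τ k) S e c (B k) (hB k)
          refine h2.congr fun ε => ?_
          simp only [Sum.elim_inr]
          congr 3
          funext v
          rw [RR_neg (χ k) (hreal k)]) hη
    refine h.mono fun ε hε => ?_
    rw [Fintype.sum_sum_type] at hε
    simp only [Sum.elim_inl, Sum.elim_inr] at hε
    linarith
  refine ⟨h1, fun m hm => ?_⟩
  have h2 : Tendsto (fun ε : ℝ => 2 * ∑ k, (∑ r ∈ S, c r * size (e r * i) (τ k) (B k r) ε) ^ 2)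
      (𝓝[>] 0) (𝓝 (2 * ∑ k, (∑ r ∈ S, c r * (-(m k r : ℝ))) ^ 2)) :=
    (tendsto_finsetSum _ fun k _ => (tendsto_finsetSum _ fun r hr =>
      (size_lim (nonvanish hi (χ k) (hχ k) (τ k) (hB k r hr)) (hm k r hr)).const_mul _).pow 2).const_mul 2
  have h3 : ∑ k, (∑ r ∈ S, c r * (-(m k r : ℝ))) ^ 2 = ∑ k, (∑ r ∈ S, c r * m k r) ^ 2 := by
    refine Finset.sum_congr rfl fun k _ => ?_
    rw [← neg_sq]
    congr 1
    rw [← Finset.sum_neg_distrib]
    exact Finset.sum_congr rfl fun r _ => by ring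
  rw [h3] at h2
  exact le_of_forall_pos_le_add fun η hη => le_of_tendsto h2 (h1 η hη)

end

end Pool.Agent.H2N.TJ
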