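import Pool.Agent.H2N.TJ.Core

/-!
Tensor powers and all Artin twists at the same time: consequences.
-/

set_option autoImplicit false

namespace Pool.Agent.H2N.TJ

open Complex Filter Topology ComplexConjugate NumberField IsDedekindDomain Asymptotics
  Pool.Agent.W401.Cheb Pool.Agent.W540.BE Pool.Agent.W353.L1 Polynomial
open Pool.Agent.W353.EH (edgePoint size HasOrder)
open Pool.Agent.W353.AT (IsArtin)
open Pool.Agent.Y139.SM (chebC chebC_sum chebC_one chebC_even)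
open Pool.Agent.H2N.TL

section
variable {K : Type} [Field K] [NumberField K] {l : ℕ} {X : Set (MvPolynomial (Fin l) (𝓞 K))}
  {d i N : ℕ}

/-- all orders except one are zero -/
theorem one_order (hi : i ≤ 2 * d) {κ : Type} [Fintype κ] {n : κ → ℕ}
    (χ : ∀ k, Representation ℂ (GK K) (Fin (n k) → ℂ))
    (hχ : ∀ k, IsArtin (χ k)) (hirr : ∀ k, (χ k).IsIrreducible) (τ : κ → ℝ)
    (hne : ∀ k l, k ≠ l → τ k = τ l → IsEmpty ((χ k).Equiv (χ l)))
    (S : Finset ℕ) (e : ℕ → ℕ) (c : ℕ → ℝ) {b : ℝ}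
    (hb : ∀ t : ℝ, |t| ≤ N → |∑ r ∈ S, c r * t ^ e r| ≤ b)
    (B : κ → ℕ → HeightOneSpectrum (𝓞 K) → ℂ[X])
    (hB : ∀ k, ∀ r ∈ S, IsPowerAt X d i N (e r) (χ k) (τ k) (B k r)) (a : ℕ) (ha : a ∈ S)
    (hca : c a = 1) (m : κ → ℤ) (hm : ∀ k, HasOrder (e a * i) (τ k) (B k a) (m k))
    (h0 : ∀ k, ∀ r ∈ S, r ≠ a → HasOrder (e r * i) (τ k) (B k r) 0) :
    ∑ k, (m k : ℝ) ^ 2 ≤ b ^ 2 := by
  classical
  have h := joint_order hi χ hχ hirr τ hne S e c hb B hB (fun k r => if r = a then m k else 0)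
    (fun k r hr => by
      by_cases h1 : r = a
      · subst h1
        simpa using hm k
      · simp only [h1, if_false]
        exact h0 k r hr h1)
  refine le_trans (le_of_eq ?_) h
  refine Finset.sum_congr rfl fun k _ => ?_
  congr 1
  rw [Finset.sum_eq_single a]
  · simp [hca]
  · intro r _ hr
    simp [hr]
  · intro h
    exact absurd ha h

theorem sq_cast {κ : Type} [Fintype κ] (m : κ → ℤ) :
    ∑ k, (m k : ℝ) ^ 2 = ((∑ k, m k ^ 2 : ℤ) : ℝ) := by
  push_cast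
  rfl

/-- **Odd powers.** -/
theorem odd_joint (hi : i ≤ 2 * d) {κ : Type} [Fintype κ] {n : κ → ℕ}
    (χ : ∀ k, Representation ℂ (GK K) (Fin (n k) → ℂ))
    (hχ : ∀ k, IsArtin (χ k)) (hirr : ∀ k, (χ k).IsIrreducible) (τ : κ → ℝ)
    (hne : ∀ k l, k ≠ l → τ k = τ l → IsEmpty ((χ k).Equiv (χ l))) {R : ℕ} (hR : Odd R)
    (B : κ → ℕ → HeightOneSpectrum (𝓞 K) → ℂ[X])
    (hB : ∀ k r, Odd r → r ≤ R → IsPowerAt X d i N r (χ k) (τ k) (B k r))
    (h0 : ∀ k r, Odd r → 3 ≤ r → r ≤ R → HasOrder (r * i) (τ k) (B k r) 0) (m : κ → ℤ)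
    (hm : ∀ k, HasOrder (1 * i) (τ k) (B k 1) (m k)) :
    (R : ℤ) ^ 2 * ∑ k, m k ^ 2 ≤ (N : ℤ) ^ 2 := by
  classical
  have hR0 : (0 : ℝ) < R := by exact_mod_cast hR.pos
  have main : ∑ k, (m k : ℝ) ^ 2 ≤ (N / R : ℝ) ^ 2 := by
    rcases Nat.eq_zero_or_pos N with hN | hN
    · have hN0 : (N : ℝ) = 0 := by rw [hN, Nat.cast_zero]
      rw [hN0, zero_div]
      refine one_order (X := X) (N := N) hi χ hχ hirr τ hne {1} (fun j => j)
        (fun _ => 1) (by
        intro t ht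
        rw [hN0] at ht
        have : t = 0 := abs_eq_zero.1 (le_antisymm ht (abs_nonneg _))
        rw [this, Finset.sum_singleton, pow_one, mul_zero, abs_zero])
        B (fun k j hj => by
          rw [Finset.mem_singleton] at hj
          subst hj
          exact hB k 1 odd_one hR.pos) 1 (Finset.mem_singleton_self 1) rfl m hm
        (fun k r hr h => absurd (Finset.mem_singleton.1 hr) h)
    · have hN0 : (0 : ℝ) < N := by exact_mod_cast hN
      set S : Finset ℕ := (Finset.range (R + 1)).filter fun r => Odd r with hS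
      have hmem : ∀ r ∈ S, Odd r ∧ r ≤ R := by
        intro r hr
        rw [hS, Finset.mem_filter, Finset.mem_range] at hr
        exact ⟨hr.2, by omega⟩
      have h1S : 1 ∈ S := by
        rw [hS, Finset.mem_filter, Finset.mem_range]
        exact ⟨by have := hR.pos; omega, odd_one⟩
      have hbt : ∀ t : ℝ, |t| ≤ N → |∑ r ∈ S, chebC N R r * t ^ r| ≤ N / R := by
        intro t ht
        have h1 : ∑ r ∈ S, chebC N R r * t ^ r =
            ∑ r ∈ Finset.range (R + 1), chebC N R r * t ^ r := by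
          rw [hS, Finset.sum_filter]
          refine Finset.sum_congr rfl fun r _ => ?_
          split_ifs with h
          · rfl
          · rw [chebC_even hR (Nat.not_odd_iff_even.1 h), zero_mul]
        rw [h1]
        exact chebC_sum hN0 hR ht
      exact one_order (X := X) (N := N) hi χ hχ hirr τ hne S (fun r => r)
        (fun r => chebC N R r) hbt B (fun k r hr => hB k r (hmem r hr).1 (hmem r hr).2) 1 h1S
        (chebC_one hN0 hR) m hm (fun k r hr h => by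
          obtain ⟨h1, h2⟩ := hmem r hr
          have h3 := h1
          obtain ⟨a, ha⟩ := h1
          exact h0 k r h3 (by omega) h2)
  rw [sq_cast, div_pow, le_div_iff₀ (by positivity), mul_comm] at main
  exact_mod_cast main

/-- at most one zero or pole -/
theorem odd_one_exception (hi : i ≤ 2 * d) {κ : Type} [Fintype κ] {n : κ → ℕ}
    (χ : ∀ k, Representation ℂ (GK K) (Fin (n k) → ℂ))
    (hχ : ∀ k, IsArtin (χ k)) (hirr : ∀ k, (χ k).IsIrreducible) (τ : κ → ℝ)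
    (hne : ∀ k l, k ≠ l → τ k = τ l → IsEmpty ((χ k).Equiv (χ l))) {R : ℕ} (hR : Odd R)
    (hNR : N ^ 2 < 2 * R ^ 2)
    (B : κ → ℕ → HeightOneSpectrum (𝓞 K) → ℂ[X])
    (hB : ∀ k r, Odd r → r ≤ R → IsPowerAt X d i N r (χ k) (τ k) (B k r))
    (h0 : ∀ k r, Odd r → 3 ≤ r → r ≤ R → HasOrder (r * i) (τ k) (B k r) 0) (m : κ → ℤ)
    (hm : ∀ k, HasOrder (1 * i) (τ k) (B k 1) (m k)) :
    (∀ k, |m k| ≤ 1) ∧ ∀ k k', k ≠ k' → m k = 0 ∨ m k' = 0 := by
  classical
  have h := odd_joint hi χ hχ hirr τ hne hR B hB h0 m hm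
  have hR1 : (1 : ℤ) ≤ (R : ℤ) ^ 2 := by
    have : (1 : ℤ) ≤ R := by exact_mod_cast hR.pos
    nlinarith
  have h1 : ∑ k, m k ^ 2 ≤ 1 := by
    by_contra hcon
    push Not at hcon
    have h2 : (2 : ℤ) ≤ ∑ k, m k ^ 2 := by omega
    have h3 : (N : ℤ) ^ 2 < 2 * (R : ℤ) ^ 2 := by exact_mod_cast hNR
    nlinarith
  refine ⟨fun k => ?_, fun k k' hk => ?_⟩
  · have h2 : m k ^ 2 ≤ 1 := (Finset.single_le_sum (f := fun k => m k ^ 2)
      (fun k _ => sq_nonneg _) (Finset.mem_univ k)).trans h1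
    exact (sq_le_one_iff_abs_le_one _).1 h2
  · by_contra hcon
    push Not at hcon
    obtain ⟨h2, h3⟩ := hcon
    have h4 : m k ^ 2 + m k' ^ 2 ≤ ∑ k, m k ^ 2 := by
      rw [← Finset.sum_pair (f := fun k => m k ^ 2) hk]
      exact Finset.sum_le_sum_of_subset_of_nonneg (Finset.subset_univ _) fun k _ _ => sq_nonneg _
    have h5 : 0 < m k ^ 2 := by positivity
    have h6 : 0 < m k' ^ 2 := by positivity
    linarith [Int.add_one_le_iff.2 h5, Int.add_one_le_iff.2 h6]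

/-- **Progressions.** -/
theorem prog_joint (hi : i ≤ 2 * d) {κ : Type} [Fintype κ] {n : κ → ℕ}
    (χ : ∀ k, Representation ℂ (GK K) (Fin (n k) → ℂ))
    (hχ : ∀ k, IsArtin (χ k)) (hirr : ∀ k, (χ k).IsIrreducible) (τ : κ → ℝ)
    (hne : ∀ k l, k ≠ l → τ k = τ l → IsEmpty ((χ k).Equiv (χ l))) {r q : ℕ} (hr : 1 ≤ r)
    (hq : Even q) (hq1 : 1 ≤ q) (J : ℕ)
    (B : κ → ℕ → HeightOneSpectrum (𝓞 K) → ℂ[X])
    (hB : ∀ k, ∀ j ≤ J, IsPowerAt X d i N (r + q * j) (χ k) (τ k) (B k j))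
    (h0 : ∀ k j, 1 ≤ j → j ≤ J → HasOrder ((r + q * j) * i) (τ k) (B k j) 0) (m : κ → ℤ)
    (hm : ∀ k, HasOrder (r * i) (τ k) (B k 0) (m k)) :
    (∑ k, m k ^ 2) ^ q * (((q * J / r : ℕ) : ℤ) + 1) ^ (2 * r) ≤ (N : ℤ) ^ (2 * (r * q)) := by
  classical
  have hq0 : q ≠ 0 := by omega
  have hM : (0 : ℝ) < ((q * J / r : ℕ) + 1 : ℝ) ^ r := by positivity
  set A : ℝ := ((N : ℝ) ^ r) ^ q / ((q * J / r : ℕ) + 1 : ℝ) ^ r with hA
  have hA0 : 0 ≤ A := by positivity
  set b : ℝ := A ^ ((q : ℝ)⁻¹) with hb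
  have hb0 : 0 ≤ b := Real.rpow_nonneg hA0 _
  have hbq : b ^ q = A := Real.rpow_inv_natCast_pow hA0 hq0
  have main : ∑ k, (m k : ℝ) ^ 2 ≤ b ^ 2 := by
    rcases Nat.eq_zero_or_pos N with hN | hN
    · have hN0 : (N : ℝ) = 0 := by rw [hN, Nat.cast_zero]
      refine le_trans (one_order (X := X) (N := N) (b := 0) hi χ hχ hirr τ hne {0}
        (fun j => r + q * j) (fun _ => 1) (by
        intro t ht
        rw [hN0] at ht
        have : t = 0 := abs_eq_zero.1 (le_antisymm ht (abs_nonneg _))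
        rw [this, Finset.sum_singleton, mul_zero, add_zero, zero_pow (by omega), mul_zero, abs_zero])
        B (fun k j hj => by
          rw [Finset.mem_singleton] at hj
          subst hj
          exact hB k 0 (Nat.zero_le _)) 0 (Finset.mem_singleton_self 0) rfl m
        (fun k => by simpa using hm k)
        (fun k r hr h => absurd (Finset.mem_singleton.1 hr) h)) ?_
      rw [zero_pow (by norm_num)]
      positivity
    · have hN0 : (0 : ℝ) < N := by exact_mod_cast hN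
      have hbt : ∀ t : ℝ, |t| ≤ N → |∑ j ∈ Finset.range (J + 1),
          ((-1) ^ j * (J.choose j : ℝ) / (N : ℝ) ^ (q * j)) * t ^ (r + q * j)| ≤ b := by
        intro t ht
        rw [Pool.Agent.V1213.TP.expand]
        refine le_of_pow_le_pow_left₀ hq0 hb0 ?_
        rw [hbq]
        exact Pool.Agent.V1213.TP.pw (r := r) (m := J) hq hN0 ht
      exact one_order (X := X) (N := N) hi χ hχ hirr τ hne (Finset.range (J + 1))
        (fun j => r + q * j) (fun j => (-1) ^ j * (J.choose j : ℝ) / (N : ℝ) ^ (q * j)) hbt B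
        (fun k j hj => hB k j (by rw [Finset.mem_range] at hj; omega)) 0
        (Finset.mem_range.2 (Nat.succ_pos J)) (by simp) m (fun k => by simpa using hm k)
        (fun k j hj h => h0 k j (by omega) (by rw [Finset.mem_range] at hj; omega))
  have h1 : (∑ k, (m k : ℝ) ^ 2) ^ q ≤ A ^ 2 := by
    refine (pow_le_pow_left₀ (Finset.sum_nonneg fun k _ => sq_nonneg _) main q).trans (le_of_eq ?_)
    rw [← pow_mul, mul_comm, pow_mul, hbq]
  rw [sq_cast, hA, div_pow, le_div_iff₀ (by positivity), ← pow_mul, ← pow_mul, ← pow_mul] at h1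
  have h2 : (((∑ k, m k ^ 2) ^ q * (((q * J / r : ℕ) : ℤ) + 1) ^ (2 * r) : ℤ) : ℝ) ≤
      (((N : ℤ) ^ (2 * (r * q)) : ℤ) : ℝ) := by
    simp only [Int.cast_mul, Int.cast_pow, Int.cast_add, Int.cast_natCast, Int.cast_one,
      Int.cast_sum] at h1 ⊢
    rw [mul_comm 2 r, mul_comm 2 (r * q), mul_assoc r q 2]
    exact h1
  exact Int.cast_le.1 h2

end

end Pool.Agent.H2N.TJ
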